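import Pool.Agent.H70.PT.Targets

/-!
# The number of large blocks with `k` factors three (row LOW of the board bwp)
-/

set_option autoImplicit false

open Finset Pool.Agent.H70.PT

namespace Pool.Agent.H17.BWP

/-- Markov -/
theorem mk {r m : ℕ} (p : (Fin r → ℕ) → (Fin r → ℕ) → Prop)
    (F : (Fin r → ℕ) → (Fin r → ℕ) → ℝ) (h0 : ∀ X Y, 0 ≤ F X Y)
    (h1 : ∀ X Y, p X Y → 1 ≤ F X Y) : NN r m p ≤ SS r m F := by
  classical
  unfold NN SS
  rw [Set.ncard_eq_toFinset_card', ← Fintype.sum_prod_type']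
  have h2 : ((Set.toFinset {q : (Fin r → Fin (2 ^ m)) × (Fin r → Fin (2 ^ m)) |
      p (fun i => q.1 i) (fun i => q.2 i)}).card : ℝ) =
      ∑ q ∈ Set.toFinset {q : (Fin r → Fin (2 ^ m)) × (Fin r → Fin (2 ^ m)) |
        p (fun i => q.1 i) (fun i => q.2 i)}, (1 : ℝ) := by
    rw [Finset.sum_const, nsmul_eq_mul, mul_one]
  rw [h2]
  calc _ ≤ ∑ q ∈ Set.toFinset {q : (Fin r → Fin (2 ^ m)) × (Fin r → Fin (2 ^ m)) |
        p (fun i => q.1 i) (fun i => q.2 i)},
        F (fun i => (q.1 i : ℕ)) (fun i => (q.2 i : ℕ)) := by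
        refine Finset.sum_le_sum fun q hq => h1 _ _ ?_
        simpa using hq
    _ ≤ _ := Finset.sum_le_sum_of_subset_of_nonneg (Finset.subset_univ _)
        (fun q _ _ => h0 _ _)

theorem exp_card {r : ℕ} (p : Fin r → Prop) [DecidablePred p] :
    Real.exp (-((Finset.univ.filter p).card : ℝ)) =
      ∏ i : Fin r, (if p i then Real.exp (-1) else 1) := by
  rw [Finset.prod_ite, Finset.prod_const, Finset.prod_const_one, mul_one, ← Real.exp_nat_mul]
  congr 1
  ring

theorem sum_choose (n k : ℕ) (hk : k ≤ n) (c : ℝ) :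
    ∑ j ∈ Finset.range (n + 1), (n.choose j : ℝ) * (if j = k then c else 1) =
      2 ^ n - n.choose k * (1 - c) := by
  have h1 : ∀ j ∈ Finset.range (n + 1), (n.choose j : ℝ) * (if j = k then c else 1) =
      (n.choose j : ℝ) - (if j = k then (n.choose j : ℝ) * (1 - c) else 0) := by
    intro j _
    split_ifs <;> ring
  rw [Finset.sum_congr rfl h1, Finset.sum_sub_distrib, Finset.sum_ite_eq' (Finset.range (n + 1)) k,
    if_pos (Finset.mem_range.mpr (Nat.lt_succ_of_le hk))]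
  congr 1
  have h := Nat.sum_range_choose n
  exact_mod_cast h

theorem card_half (l : ℕ) (A B : ℝ) :
    ∑ w : Fin (2 ^ (l + 1)), (if 2 ^ l ≤ (w : ℕ) then A else B) = 2 ^ l * A + 2 ^ l * B := by
  rw [Fin.sum_univ_eq_sum_range (fun w : ℕ => if 2 ^ l ≤ w then A else B) (2 ^ (l + 1))]
  have h : 2 ^ (l + 1) = 2 ^ l + 2 ^ l := by rw [pow_succ]; ring
  rw [h, Finset.sum_range_add]
  have h1 : ∑ x ∈ Finset.range (2 ^ l), (if 2 ^ l ≤ x then A else B) = 2 ^ l * B := by
    have h2 : ∀ x ∈ Finset.range (2 ^ l), (if 2 ^ l ≤ x then A else B) = B := by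
      intro x hx
      rw [if_neg (by rw [Finset.mem_range] at hx; omega)]
    rw [Finset.sum_congr rfl h2, Finset.sum_const, Finset.card_range, nsmul_eq_mul]
    push_cast
    ring
  have h3 : ∑ x ∈ Finset.range (2 ^ l), (if 2 ^ l ≤ 2 ^ l + x then A else B) = 2 ^ l * A := by
    have h2 : ∀ x ∈ Finset.range (2 ^ l), (if 2 ^ l ≤ 2 ^ l + x then A else B) = A := by
      intro x _
      rw [if_pos (by omega)]
    rw [Finset.sum_congr rfl h2, Finset.sum_const, Finset.card_range, nsmul_eq_mul]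
    push_cast
    ring
  rw [h1, h3]
  ring

theorem SS_prod (r l : ℕ) (c : ℝ) (A : ℕ → ℝ) :
    SS r l (fun _ w => c * ∏ i, A (w i)) =
      (2 ^ l) ^ r * c * (∑ w : Fin (2 ^ l), A w) ^ r := by
  unfold SS
  rw [Finset.sum_const, Finset.card_univ, nsmul_eq_mul, ← Finset.mul_sum]
  have h := Finset.prod_univ_sum (fun _ : Fin r => (Finset.univ : Finset (Fin (2 ^ l))))
    (fun _ w => A (w : ℕ))
  rw [Fintype.piFinset_univ] at h
  rw [← h, Finset.prod_const]
  simp only [Fintype.card_pi, Fintype.card_fin, Finset.prod_const, Finset.card_univ]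
  push_cast
  ring

theorem pf_LOW (HIB : T_HIB) (TOB : T_TOB) : T_LOW := by
  classical
  intro r n m k hm hk
  obtain ⟨l, rfl⟩ : ∃ l, m = n + (l + 1) := ⟨m - n - 1, by omega⟩
  set p : ℝ := (n.choose k : ℝ) / 2 ^ n with hp
  set e : ℝ := Real.exp (-1) with he
  -- the function
  have hF : ∀ X Y : Fin r → ℕ, Real.exp (-(nk n (n + (l + 1)) k X Y)) =
      ∏ i, (if QQ n (false, X, Y) i = k ∧ 2 ^ l ≤ Y i / 2 ^ n then e else 1) := by
    intro X Y
    have h1 : nk n (n + (l + 1)) k X Y = ((Finset.univ.filter fun i : Fin r =>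
        QQ n (false, X, Y) i = k ∧ 2 ^ l ≤ Y i / 2 ^ n).card : ℕ) := by
      unfold nk
      congr 1
      refine Finset.filter_congr fun i _ => ?_
      have h2 : n + (l + 1) - 1 = l + n := by omega
      rw [h2, pow_add, Nat.le_div_iff_mul_le (by positivity)]
    rw [h1, exp_card]
  -- the sum
  have hS : SS r (n + (l + 1)) (fun X Y => Real.exp (-(nk n (n + (l + 1)) k X Y))) =
      (4 ^ (n + (l + 1))) ^ r * (1 - p / 2 * (1 - e)) ^ r := by
    have h1 := HIB r n (l + 1) (fun _ Q _ w =>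
      ∏ i, (if Q i = k ∧ 2 ^ l ≤ w i then e else 1))
    simp only [hF]
    rw [h1]
    have h2 : ∀ w : Fin r → ℕ, tot (fun _ Q : Fin r → ℕ =>
        ∏ i, (if Q i = k ∧ 2 ^ l ≤ w i then e else 1)) n false (fun _ => 0) (fun _ => 0) =
        (2 ^ r) ^ n * ∏ i, (fun x : ℕ => if 2 ^ l ≤ x then
          (2 : ℝ) ^ n - n.choose k * (1 - e) else 2 ^ n) (w i) := by
      intro w
      rw [TOB r n false (fun _ => 0) (fun _ => 0)
        (fun i q => if q = k ∧ 2 ^ l ≤ w i then e else 1)]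
      congr 1
      refine Finset.prod_congr rfl fun i _ => ?_
      simp only [zero_add]
      by_cases hw : 2 ^ l ≤ w i
      · simp only [hw, and_true, if_true]
        exact sum_choose n k hk e
      · simp only [hw, and_false, if_false, mul_one]
        have h := Nat.sum_range_choose n
        exact_mod_cast h
    simp only [h2]
    rw [SS_prod r (l + 1) ((2 ^ r) ^ n) (fun x : ℕ => if 2 ^ l ≤ x then
          (2 : ℝ) ^ n - n.choose k * (1 - e) else 2 ^ n), card_half]
    have h3 : (2 : ℝ) ^ l * (2 ^ n - n.choose k * (1 - e)) + 2 ^ l * 2 ^ n =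
        2 ^ (l + 1) * 2 ^ n * (1 - p / 2 * (1 - e)) := by
      rw [hp, pow_succ]
      field_simp
      ring
    rw [h3]
    have h4 : ((2 : ℝ) ^ r) ^ n = (2 ^ n) ^ r := by rw [← pow_mul, ← pow_mul, mul_comm]
    rw [h4, ← mul_pow, ← mul_pow, ← mul_pow]
    congr 1
    have h5 : (4 : ℝ) ^ (n + (l + 1)) = 2 ^ (l + 1) * 2 ^ n * (2 ^ (l + 1) * 2 ^ n) := by
      rw [pow_add, show (4 : ℝ) = 2 * 2 by norm_num, mul_pow, mul_pow]
      ring
    rw [h5]
    ring
  -- the probability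
  have hp0 : 0 ≤ p := by positivity
  have hp1 : p ≤ 1 := by
    rw [hp, div_le_one (by positivity)]
    have h := Nat.choose_le_two_pow n k
    exact_mod_cast h
  have he0 : 0 < e := Real.exp_pos _
  have he1 : e ≤ 5 / 12 := by
    rw [he, Real.exp_neg]
    have h := Real.exp_one_gt_d9
    rw [inv_le_comm₀ (by positivity) (by norm_num)]
    linarith
  have hM : ∀ X Y : Fin r → ℕ, (nk n (n + (l + 1)) k X Y : ℝ) ≤ r * p / 8 →
      1 ≤ Real.exp (r * p / 8) * Real.exp (-(nk n (n + (l + 1)) k X Y)) := by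
    intro X Y h
    rw [← Real.exp_add]
    refine Real.one_le_exp ?_
    linarith only [h]
  have h1 := mk (r := r) (m := n + (l + 1))
    (fun X Y => (nk n (n + (l + 1)) k X Y : ℝ) ≤ r * p / 8)
    (fun X Y => Real.exp (r * p / 8) * Real.exp (-(nk n (n + (l + 1)) k X Y)))
    (fun X Y => mul_nonneg (Real.exp_pos _).le (Real.exp_pos _).le) hM
  refine h1.trans ?_
  have h2 : SS r (n + (l + 1)) (fun X Y => Real.exp (r * p / 8) *
      Real.exp (-(nk n (n + (l + 1)) k X Y))) = Real.exp (r * p / 8) *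
      SS r (n + (l + 1)) (fun X Y => Real.exp (-(nk n (n + (l + 1)) k X Y))) := by
    unfold SS
    rw [Finset.mul_sum]
    refine Finset.sum_congr rfl fun X _ => ?_
    rw [Finset.mul_sum]
  rw [h2, hS]
  have h3 : (1 - p / 2 * (1 - e)) ^ r ≤ Real.exp (-(r * (p / 2 * (1 - e)))) := by
    have h4 : 1 - p / 2 * (1 - e) ≤ Real.exp (-(p / 2 * (1 - e))) := by
      have h := Real.add_one_le_exp (-(p / 2 * (1 - e)))
      linarith
    have h5 : 0 ≤ 1 - p / 2 * (1 - e) := by nlinarith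
    have h6 := pow_le_pow_left₀ h5 h4 r
    rw [← Real.exp_nat_mul] at h6
    refine h6.trans (le_of_eq ?_)
    congr 1
    ring
  have h4 : Real.exp (r * p / 8) * Real.exp (-(r * (p / 2 * (1 - e)))) ≤
      Real.exp (-(r * p / 6)) := by
    rw [← Real.exp_add, Real.exp_le_exp]
    have h5 : (0 : ℝ) ≤ r * p := by positivity
    nlinarith
  calc Real.exp (r * p / 8) * ((4 ^ (n + (l + 1))) ^ r * (1 - p / 2 * (1 - e)) ^ r)
      ≤ Real.exp (r * p / 8) * ((4 ^ (n + (l + 1))) ^ r *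
        Real.exp (-(r * (p / 2 * (1 - e))))) := by gcongr
    _ = Real.exp (r * p / 8) * Real.exp (-(r * (p / 2 * (1 - e)))) *
        (4 ^ (n + (l + 1))) ^ r := by ring
    _ ≤ Real.exp (-(r * p / 6)) * (4 ^ (n + (l + 1))) ^ r := by gcongr

end Pool.Agent.H17.BWP
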