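import Pool.Agent.H75.PT.Targets

/-!
# The moments of order a little above one (row RHO of the board bwp)
-/

set_option autoImplicit false

open Filter Topology Pool.Agent.H70.PT

namespace Pool.Agent.H17.BWP

theorem pf_RHO (ENT : Pool.Agent.H70.PT.T_ENT) : Pool.Agent.H75.PT.T_RHO := by
  intro g hg
  have hka : ka (3 / 4) = 3 / 4 * Real.logb 2 3 - 1 := ENT.2.1
  set c : ℝ := ka (3 / 4) + g with hc
  have hl2 : 0 < Real.log 2 := Real.log_pos (by norm_num)
  let F : ℝ → ℝ := fun x => (2 : ℝ) ^ (c * x) -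
    ((1 / 2 : ℝ) ^ (1 + x) + (3 / 2) ^ (1 + x)) / 2
  have hd1 : HasDerivAt (fun x : ℝ => (2 : ℝ) ^ (c * x)) (Real.log 2 * c * 2 ^ (c * 0)) 0 := by
    have h : HasDerivAt (fun x : ℝ => c * x) c 0 := by
      simpa using (hasDerivAt_id (0 : ℝ)).const_mul c
    exact h.const_rpow (by norm_num)
  have hd2 : ∀ a : ℝ, 0 < a → HasDerivAt (fun x : ℝ => a ^ (1 + x))
      (Real.log a * 1 * a ^ (1 + (0 : ℝ))) 0 := by
    intro a ha
    have h : HasDerivAt (fun x : ℝ => 1 + x) 1 0 := by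
      simpa using (hasDerivAt_id (0 : ℝ)).const_add 1
    exact h.const_rpow ha
  have hF : HasDerivAt F (g * Real.log 2) 0 := by
    have h := hd1.sub (((hd2 (1 / 2) (by norm_num)).add (hd2 (3 / 2) (by norm_num))).div_const 2)
    refine h.congr_deriv ?_
    rw [hc, hka, mul_zero, Real.rpow_zero, add_zero, Real.rpow_one, Real.rpow_one,
      Real.log_div (by norm_num) (by norm_num), Real.log_div (by norm_num) (by norm_num),
      Real.log_one, Real.logb]
    field_simp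
    ring
  have hF0 : F 0 = 0 := by
    simp only [F]
    rw [mul_zero, Real.rpow_zero, add_zero, Real.rpow_one, Real.rpow_one]
    norm_num
  have h1 : Tendsto (slope F 0) (𝓝[>] 0) (𝓝 (g * Real.log 2)) :=
    hF.tendsto_slope.mono_left (nhdsWithin_mono _ fun x hx => ne_of_gt hx)
  have h2 : ∀ᶠ x in 𝓝[>] (0 : ℝ), 0 < slope F 0 x :=
    h1.eventually (lt_mem_nhds (mul_pos hg hl2))
  have h3 : ∀ᶠ x in 𝓝[>] (0 : ℝ), x ∈ Set.Ioc (0 : ℝ) 1 := Ioc_mem_nhdsGT one_pos
  obtain ⟨x, hx, hx0, hx1⟩ := (h2.and h3).exists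
  refine ⟨x, hx0, hx1, ?_⟩
  rw [slope_def_field, hF0, sub_zero, sub_zero] at hx
  have h4 : 0 < F x := by
    rcases div_pos_iff.1 hx with h | h
    · exact h.1
    · linarith [h.2]
  have h5 : 0 < (2 : ℝ) ^ (c * x) - ((1 / 2 : ℝ) ^ (1 + x) + (3 / 2) ^ (1 + x)) / 2 := h4
  linarith

end Pool.Agent.H17.BWP
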