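import Pool.Agent.H70.PT.Targets

/-!
# One counter (row TOA of the board bwp)
-/

set_option autoImplicit false

open Finset Pool.Agent.H70.PT

namespace Pool.Agent.H17.BWP

/-- flipping the coin `i` -/
def fl {r : ℕ} (i : Fin r) (c : Fin r → Bool) : Fin r → Bool := Function.update c i (!c i)

theorem fl_fl {r : ℕ} (i : Fin r) (c : Fin r → Bool) : fl i (fl i c) = c := by
  unfold fl
  funext j
  by_cases h : j = i
  · subst h; simp
  · simp [Function.update_of_ne h]

theorem pst_fl {r : ℕ} (a : Bool) (i : Fin r) (c : Fin r → Bool) (k : ℕ) (h : (i : ℕ) < k) :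
    pst a (tn (fl i c)) k = !pst a (tn c) k := by
  unfold pst
  rw [← Finset.add_sum_erase Finset.univ _ (Finset.mem_univ i),
    ← Finset.add_sum_erase Finset.univ (fun j : Fin r => if (j : ℕ) < k then tn c j else 0)
      (Finset.mem_univ i)]
  have h2 : (∑ j ∈ Finset.univ.erase i, if (j : ℕ) < k then tn (fl i c) j else 0) =
      ∑ j ∈ Finset.univ.erase i, if (j : ℕ) < k then tn c j else 0 := by
    refine Finset.sum_congr rfl fun j hj => ?_
    have hj2 : j ≠ i := Finset.ne_of_mem_erase hj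
    simp only [tn, fl, Function.update_of_ne hj2]
  rw [h2]
  simp only [h, if_true, Nat.bodd_add]
  have h3 : (tn (fl i c) i).bodd = !(tn c i).bodd := by
    unfold tn fl
    simp only [Function.update_self]
    cases c i <;> rfl
  rw [h3]
  cases a <;> cases (tn c i).bodd <;>
    cases (∑ j ∈ Finset.univ.erase i, if (j : ℕ) < k then tn c j else 0).bodd <;> rfl

theorem sum_fl {r : ℕ} (i : Fin r) (g : (Fin r → Bool) → Bool) (hg : ∀ c, g (fl i c) = !g c)
    (w : ℝ) : ∑ c : Fin r → Bool, w ^ (cond (g c) 1 0 : ℕ) = 2 ^ r * ((1 + w) / 2) := by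
  have h1 : ∑ c : Fin r → Bool, w ^ (cond (g c) 1 0 : ℕ) =
      ∑ c : Fin r → Bool, w ^ (cond (!g c) 1 0 : ℕ) := by
    have h := Equiv.sum_comp (Function.Involutive.toPerm (fl i) (fl_fl i))
      (fun c : Fin r → Bool => w ^ (cond (g c) 1 0 : ℕ))
    rw [← h]
    refine Finset.sum_congr rfl fun c _ => ?_
    have h2 : (Function.Involutive.toPerm (fl i) (fl_fl i)) c = fl i c := rfl
    rw [h2, hg]
  have h2 : ∑ c : Fin r → Bool, w ^ (cond (g c) 1 0 : ℕ) +
      ∑ c : Fin r → Bool, w ^ (cond (g c) 1 0 : ℕ) = 2 ^ r * (1 + w) := by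
    nth_rewrite 2 [h1]
    rw [← Finset.sum_add_distrib]
    have h3 : ∀ c ∈ (Finset.univ : Finset (Fin r → Bool)),
        w ^ (cond (g c) 1 0 : ℕ) + w ^ (cond (!g c) 1 0 : ℕ) = 1 + w := by
      intro c _
      cases g c <;> simp <;> ring
    rw [Finset.sum_congr rfl h3, Finset.sum_const, Finset.card_univ, nsmul_eq_mul]
    simp
  linarith

theorem sum_cP {r : ℕ} (a : Bool) (i : Fin r) (w : ℝ) :
    ∑ c : Fin r → Bool, ∑ d : Fin r → Bool, w ^ cP (a, tn c, tn d) i =
      4 ^ r * ((1 + w) / 2) := by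
  rw [Finset.sum_comm]
  have h1 : ∀ d ∈ (Finset.univ : Finset (Fin r → Bool)),
      ∑ c : Fin r → Bool, w ^ cP (a, tn c, tn d) i = 2 ^ r * ((1 + w) / 2) := by
    intro d _
    refine sum_fl i (fun c => sb (a, tn c, tn d) i) (fun c => ?_) w
    unfold sb
    simp only [pst_fl a i c r i.2]
    unfold pst
    rw [Bool.not_xor]
  rw [Finset.sum_congr rfl h1, Finset.sum_const, Finset.card_univ, nsmul_eq_mul]
  have h4 : (4 : ℝ) ^ r = 2 ^ r * 2 ^ r := by rw [← mul_pow]; norm_num
  rw [h4]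
  simp
  ring

theorem sum_cQ {r : ℕ} (a : Bool) (i : Fin r) (w : ℝ) :
    ∑ c : Fin r → Bool, ∑ d : Fin r → Bool, w ^ cQ (a, tn c, tn d) i =
      4 ^ r * ((1 + w) / 2) := by
  rw [Finset.sum_comm]
  have h1 : ∀ d ∈ (Finset.univ : Finset (Fin r → Bool)),
      ∑ c : Fin r → Bool, w ^ cQ (a, tn c, tn d) i = 2 ^ r * ((1 + w) / 2) := by
    intro d _
    refine sum_fl i (fun c => pst a (tn c) (i + 1)) (fun c => ?_) w
    exact pst_fl a i c _ (Nat.lt_succ_self _)
  rw [Finset.sum_congr rfl h1, Finset.sum_const, Finset.card_univ, nsmul_eq_mul]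
  have h4 : (4 : ℝ) ^ r = 2 ^ r * 2 ^ r := by rw [← mul_pow]; norm_num
  rw [h4]
  simp
  ring

theorem pf_TOA : T_TOA := by
  intro r n
  induction n with
  | zero =>
    intro a P Q i w
    simp [tot]
  | succ n ih =>
    intro a P Q i w
    constructor
    · have h1 : ∀ c ∈ (Finset.univ : Finset (Fin r → Bool)),
          ∀ d ∈ (Finset.univ : Finset (Fin r → Bool)),
          tot (fun P _ => w ^ P i) n (sb (a, tn c, tn d) r)
            (fun i => P i + cP (a, tn c, tn d) i) (fun i => Q i + cQ (a, tn c, tn d) i) =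
          (4 ^ r * ((1 + w) / 2)) ^ n * w ^ P i * w ^ cP (a, tn c, tn d) i := by
        intro c _ d _
        rw [(ih _ _ _ i w).1, pow_add]
        ring
      simp only [tot]
      rw [Finset.sum_congr rfl fun c hc => Finset.sum_congr rfl fun d hd => h1 c hc d hd]
      simp_rw [← Finset.mul_sum]
      rw [sum_cP]
      ring
    · have h1 : ∀ c ∈ (Finset.univ : Finset (Fin r → Bool)),
          ∀ d ∈ (Finset.univ : Finset (Fin r → Bool)),
          tot (fun _ Q => w ^ Q i) n (sb (a, tn c, tn d) r)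
            (fun i => P i + cP (a, tn c, tn d) i) (fun i => Q i + cQ (a, tn c, tn d) i) =
          (4 ^ r * ((1 + w) / 2)) ^ n * w ^ Q i * w ^ cQ (a, tn c, tn d) i := by
        intro c _ d _
        rw [(ih _ _ _ i w).2, pow_add]
        ring
      simp only [tot]
      rw [Finset.sum_congr rfl fun c hc => Finset.sum_congr rfl fun d hd => h1 c hc d hd]
      simp_rw [← Finset.mul_sum]
      rw [sum_cQ]
      ring

end Pool.Agent.H17.BWP
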